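import Pool.Agent.H12.S36.RED

set_option autoImplicit false

open Complex Pool.Agent.H32.S36

namespace Pool.Agent.H12.S36

theorem cd_ne (c d : ℤ) (h : c ≠ 0 ∨ d ≠ 0) (τ : ℂ) (hτ : 0 < τ.im) : (c : ℂ) * τ + d ≠ 0 := by
  intro h0
  have him := congrArg Complex.im h0
  have hre := congrArg Complex.re h0
  simp only [Complex.add_im, Complex.mul_im, Complex.intCast_re, Complex.intCast_im, zero_mul,
    add_zero, Complex.zero_im] at him
  simp only [Complex.add_re, Complex.mul_re, Complex.intCast_re, Complex.intCast_im, zero_mul,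
    sub_zero, Complex.zero_re] at hre
  have hc : (c : ℝ) = 0 := by
    rcases mul_eq_zero.mp him with h1 | h1
    · exact h1
    · exact absurd h1 hτ.ne'
  rw [hc, zero_mul, zero_add] at hre
  rcases h with h1 | h1
  · exact h1 (by exact_mod_cast hc)
  · exact h1 (by exact_mod_cast hre)

theorem w5_step (F : ℂ → ℂ) (s : ℂ) (m : ℤ) (hF : MF s m F) (a b c d e A B C D E g : ℤ)
    (hg : g ≠ 0) (he : e ≠ 0) (hE : E ≠ 0) (h1 : g * A = 5 * a + 10 * b)
    (h2 : g * B = -(3 * a + 5 * b)) (h3 : g * C = 5 * c + 10 * d) (h4 : g * D = -(3 * c + 5 * d))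
    (h5 : g ^ 2 * E = 5 * e) (hcd : c ≠ 0 ∨ d ≠ 0) (x y : ℂ) (hxy : y * s = x)
    (H : ∀ σ : ℂ, 0 < σ.im →
      F ((A * σ + B) / (C * σ + D)) = y * ((C * σ + D) ^ 2 / E) ^ m * F σ) :
    ∀ τ : ℂ, 0 < τ.im →
      F ((a * τ + b) / (c * τ + d)) = x * ((c * τ + d) ^ 2 / e) ^ m * F τ := by
  intro τ hτ
  have h0 : (10 : ℂ) * τ - 5 ≠ 0 := by
    have := cd_ne 10 (-5) (Or.inl (by norm_num)) τ hτ
    push_cast at this
    rwa [← sub_eq_add_neg] at this
  have h0' : (2 : ℂ) * τ - 1 ≠ 0 := by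
    intro h
    apply h0
    linear_combination 5 * h
  have hn := cd_ne c d hcd τ hτ
  have hσ : 0 < ((5 * τ - 3) / (10 * τ - 5)).im := by
    rw [im5 τ hτ]
    positivity
  have h1' : (g : ℂ) * A = 5 * a + 10 * b := by exact_mod_cast h1
  have h2' : (g : ℂ) * B = -(3 * a + 5 * b) := by exact_mod_cast h2
  have h3' : (g : ℂ) * C = 5 * c + 10 * d := by exact_mod_cast h3
  have h4' : (g : ℂ) * D = -(3 * c + 5 * d) := by exact_mod_cast h4
  have h5' : (g : ℂ) ^ 2 * E = 5 * e := by exact_mod_cast h5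
  have hg' : (g : ℂ) ≠ 0 := by exact_mod_cast hg
  have he' : (e : ℂ) ≠ 0 := by exact_mod_cast he
  have hE' : (E : ℂ) ≠ 0 := by exact_mod_cast hE
  have key := H _ hσ
  rw [hF.w5 τ hτ] at key
  have e1 : (g : ℂ) * (C * ((5 * τ - 3) / (10 * τ - 5)) + D) = -5 * (c * τ + d) / (10 * τ - 5) := by
    have : (g : ℂ) * (C * ((5 * τ - 3) / (10 * τ - 5)) + D)
        = (g * C) * ((5 * τ - 3) / (10 * τ - 5)) + g * D := by ring
    rw [this, h3', h4']
    field_simp
    ring
  have e2 : (g : ℂ) * (A * ((5 * τ - 3) / (10 * τ - 5)) + B) = -5 * (a * τ + b) / (10 * τ - 5) := by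
    have : (g : ℂ) * (A * ((5 * τ - 3) / (10 * τ - 5)) + B)
        = (g * A) * ((5 * τ - 3) / (10 * τ - 5)) + g * B := by ring
    rw [this, h1', h2']
    field_simp
    ring
  have e3 : (A * ((5 * τ - 3) / (10 * τ - 5)) + B) / (C * ((5 * τ - 3) / (10 * τ - 5)) + D)
      = (a * τ + b) / (c * τ + d) := by
    rw [← mul_div_mul_left _ _ hg', e1, e2, div_div_div_cancel_right₀ h0,
      mul_div_mul_left _ _ (by norm_num)]
  have e4 : (C * ((5 * τ - 3) / (10 * τ - 5)) + D) ^ 2 / E * (5 * (2 * τ - 1) ^ 2)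
      = (c * τ + d) ^ 2 / e := by
    have e5 : (C * ((5 * τ - 3) / (10 * τ - 5)) + D : ℂ) = (-5 * (c * τ + d) / (10 * τ - 5)) / g := by
      rw [← e1]
      field_simp
    have e6 : (10 * τ - 5 : ℂ) = 5 * (2 * τ - 1) := by ring
    rw [e5, e6, div_mul_eq_mul_div, div_eq_div_iff hE' he']
    have e7 : (-5 * (c * τ + d) / (5 * (2 * τ - 1)) / g) ^ 2 * (5 * (2 * τ - 1) ^ 2) * (g ^ 2 )
        = 5 * (c * τ + d) ^ 2 := by
      generalize (2 * τ - 1 : ℂ) = L at h0'
      field_simp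
    have hg2 : (g : ℂ) ^ 2 ≠ 0 := pow_ne_zero 2 hg'
    apply mul_right_cancel₀ hg2
    calc _ = ((-5 * (c * τ + d) / (5 * (2 * τ - 1)) / g) ^ 2 * (5 * (2 * τ - 1) ^ 2) * (g ^ 2 )) * e := by
          ring
      _ = (c * τ + d) ^ 2 * (5 * e) := by rw [e7]; ring
      _ = _ := by rw [← h5']; ring
  rw [e3] at key
  rw [key, ← e4, ← hxy]
  generalize ((C * ((5 * τ - 3) / (10 * τ - 5)) + D) ^ 2 / E : ℂ) = Z1
  generalize (5 * (2 * τ - 1) ^ 2 : ℂ) = Z2
  rw [mul_zpow]
  ring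

theorem w10_step (F : ℂ → ℂ) (s : ℂ) (m : ℤ) (hF : MF s m F) (a b c d e A B C D E g : ℤ)
    (hg : g ≠ 0) (he : e ≠ 0) (hE : E ≠ 0) (h1 : g * A = 10 * b)
    (h2 : g * B = -a) (h3 : g * C = 10 * d) (h4 : g * D = -c)
    (h5 : g ^ 2 * E = 10 * e) (hcd : c ≠ 0 ∨ d ≠ 0) (x y : ℂ) (hxy : y * s = x)
    (H : ∀ σ : ℂ, 0 < σ.im →
      F ((A * σ + B) / (C * σ + D)) = y * ((C * σ + D) ^ 2 / E) ^ m * F σ) :
    ∀ τ : ℂ, 0 < τ.im →
      F ((a * τ + b) / (c * τ + d)) = x * ((c * τ + d) ^ 2 / e) ^ m * F τ := by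
  intro τ hτ
  have h0 : τ ≠ 0 := by
    intro h
    rw [h] at hτ
    simp at hτ
  have hn := cd_ne c d hcd τ hτ
  have hσ : 0 < (-1 / (10 * τ)).im := by
    rw [im10 τ hτ]
    positivity
  have h1' : (g : ℂ) * A = 10 * b := by exact_mod_cast h1
  have h2' : (g : ℂ) * B = -a := by exact_mod_cast h2
  have h3' : (g : ℂ) * C = 10 * d := by exact_mod_cast h3
  have h4' : (g : ℂ) * D = -c := by exact_mod_cast h4
  have h5' : (g : ℂ) ^ 2 * E = 10 * e := by exact_mod_cast h5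
  have hg' : (g : ℂ) ≠ 0 := by exact_mod_cast hg
  have he' : (e : ℂ) ≠ 0 := by exact_mod_cast he
  have hE' : (E : ℂ) ≠ 0 := by exact_mod_cast hE
  have key := H _ hσ
  rw [hF.w10 τ hτ] at key
  have e1 : (g : ℂ) * (C * (-1 / (10 * τ)) + D) = -(c * τ + d) / τ := by
    have : (g : ℂ) * (C * (-1 / (10 * τ)) + D)
        = (g * C) * (-1 / (10 * τ)) + g * D := by ring
    rw [this, h3', h4']
    field_simp
    ring
  have e2 : (g : ℂ) * (A * (-1 / (10 * τ)) + B) = -(a * τ + b) / τ := by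
    have : (g : ℂ) * (A * (-1 / (10 * τ)) + B)
        = (g * A) * (-1 / (10 * τ)) + g * B := by ring
    rw [this, h1', h2']
    field_simp
    ring
  have e3 : (A * (-1 / (10 * τ)) + B) / (C * (-1 / (10 * τ)) + D)
      = (a * τ + b) / (c * τ + d) := by
    rw [← mul_div_mul_left _ _ hg', e1, e2]
    field_simp
  have e4 : (C * (-1 / (10 * τ)) + D) ^ 2 / E * (10 * τ ^ 2)
      = (c * τ + d) ^ 2 / e := by
    have e5 : (C * (-1 / (10 * τ)) + D : ℂ) = (-(c * τ + d) / τ) / g := by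
      rw [← e1]
      field_simp
    rw [e5, div_mul_eq_mul_div, div_eq_div_iff hE' he']
    have e7 : (-(c * τ + d) / τ / g) ^ 2 * (10 * τ ^ 2) * (g ^ 2 )
        = 10 * (c * τ + d) ^ 2 := by
      field_simp
    have hg2 : (g : ℂ) ^ 2 ≠ 0 := pow_ne_zero 2 hg'
    apply mul_right_cancel₀ hg2
    calc _ = ((-(c * τ + d) / τ / g) ^ 2 * (10 * τ ^ 2) * (g ^ 2 )) * e := by
          ring
      _ = (c * τ + d) ^ 2 * (10 * e) := by rw [e7]; ring
      _ = _ := by rw [← h5']; ring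
  rw [e3] at key
  rw [key, ← e4, ← hxy]
  generalize ((C * (-1 / (10 * τ)) + D) ^ 2 / E : ℂ) = Z1
  generalize (10 * τ ^ 2 : ℂ) = Z2
  rw [mul_zpow]
  ring

theorem fper (F : ℂ → ℂ) (hp : ∀ τ : ℂ, 0 < τ.im → F (τ + 1) = F τ) (τ : ℂ) (hτ : 0 < τ.im)
    (n : ℤ) : F (τ + n) = F τ := by
  induction n using Int.induction_on with
  | zero => simp
  | succ k ih =>
    have h1 := hp (τ + ((k : ℤ) : ℂ)) (by simpa using hτ)
    rw [ih] at h1
    rw [← h1]
    congr 1
    push_cast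
    ring
  | pred k ih =>
    have h1 := hp (τ + ((-(k : ℤ) - 1 : ℤ) : ℂ)) (by simpa using hτ)
    rw [← h1, ← ih]
    congr 1
    push_cast
    ring

/-- translation -/
theorem tr_step (F : ℂ → ℂ) (s : ℂ) (m : ℤ) (hF : MF s m F) (a b c d e n : ℤ) (x : ℂ)
    (H : ∀ σ : ℂ, 0 < σ.im →
      F ((a * σ + (b + n * a : ℤ)) / (c * σ + (d + n * c : ℤ)))
        = x * ((c * σ + (d + n * c : ℤ)) ^ 2 / e) ^ m * F σ) :
    ∀ τ : ℂ, 0 < τ.im →
      F ((a * τ + b) / (c * τ + d)) = x * ((c * τ + d) ^ 2 / e) ^ m * F τ := by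
  intro τ hτ
  have key := H (τ + ((-n : ℤ) : ℂ)) (by simpa using hτ)
  rw [fper F hF.per τ hτ] at key
  have e1 : (a * (τ + ((-n : ℤ) : ℂ)) + (b + n * a : ℤ) : ℂ) = a * τ + b := by
    push_cast
    ring
  have e2 : (c * (τ + ((-n : ℤ) : ℂ)) + (d + n * c : ℤ) : ℂ) = c * τ + d := by
    push_cast
    ring
  rw [e1, e2] at key
  exact key

/-- choice of the translate -/
theorem choose_n (M d0 : ℤ) (hM : M ≠ 0) :
    ∃ n : ℤ, 10 * (d0 + n * M) ^ 2 < M ^ 2 ∨ 5 * (M + 2 * (d0 + n * M)) ^ 2 < M ^ 2 := by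
  have hm : 0 < |M| := abs_pos.mpr hM
  set r := d0 % M with hr
  have hr0 : 0 ≤ r := Int.emod_nonneg _ hM
  have hr1 : r < |M| := Int.emod_lt_abs _ hM
  have hd : d0 = r + M * (d0 / M) := (Int.emod_add_mul_ediv d0 M).symm
  generalize d0 / M = q at hd
  have hM2 : M ^ 2 = |M| ^ 2 := (sq_abs M).symm
  by_cases hA : 10 * r ^ 2 < M ^ 2
  · refine ⟨-q, Or.inl ?_⟩
    have e : d0 + -q * M = r := by rw [hd]; ring
    rw [e]
    exact hA
  by_cases hB : 10 * (|M| - r) ^ 2 < M ^ 2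
  · rcases abs_choice M with hs | hs
    · refine ⟨-q - 1, Or.inl ?_⟩
      have e : d0 + (-q - 1) * M = -(|M| - r) := by rw [hs, hd]; ring
      rw [e, neg_sq]
      exact hB
    · refine ⟨-q + 1, Or.inl ?_⟩
      have e : d0 + (-q + 1) * M = -(|M| - r) := by rw [hs, hd]; ring
      rw [e, neg_sq]
      exact hB
  push Not at hA hB
  have h1 : 3 * |M| ≤ 10 * r := by
    rw [hM2] at hA
    by_contra hc
    push Not at hc
    nlinarith
  have h2 : 3 * |M| ≤ 10 * (|M| - r) := by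
    rw [hM2] at hB
    by_contra hc
    push Not at hc
    nlinarith
  have h3 : 5 * (2 * r - |M|) ^ 2 < M ^ 2 := by
    rw [hM2]
    nlinarith [mul_nonneg (sub_nonneg.mpr h1) (sub_nonneg.mpr h2), mul_pos hm hm]
  rcases le_or_gt 0 M with hs | hs
  · refine ⟨-q - 1, Or.inr ?_⟩
    rw [abs_of_nonneg hs] at h3
    have e : M + 2 * (d0 + (-q - 1) * M) = 2 * r - M := by rw [hd]; ring
    rw [e]
    exact h3
  · refine ⟨-q, Or.inr ?_⟩
    rw [abs_of_neg hs] at h3
    have e : M + 2 * (d0 + -q * M) = 2 * r - -M := by rw [hd]; ring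
    rw [e]
    exact h3

theorem gen_ind (F : ℂ → ℂ) (s : ℂ) (m : ℤ) (hs : s ^ 2 = 1) (hF : MF s m F) (N : ℕ) :
    ∀ e e' a0 b c0 d0 : ℤ, 0 < e → e * e' = 10 → e * a0 * d0 - e' * b * c0 = 1 →
      c0 ^ 2 * e' ≤ N → ∀ τ : ℂ, 0 < τ.im →
      F (((e * a0 : ℤ) * τ + b) / ((10 * c0 : ℤ) * τ + (e * d0 : ℤ))) =
        (if e = 1 ∨ e = 2 then 1 else s) *
          (((10 * c0 : ℤ) * τ + (e * d0 : ℤ)) ^ 2 / e) ^ m * F τ := by
  have base : ∀ e e' a0 b d0 : ℤ, 0 < e → e * e' = 10 → e * a0 * d0 - e' * b * 0 = 1 →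
      ∀ τ : ℂ, 0 < τ.im →
      F (((e * a0 : ℤ) * τ + b) / ((10 * 0 : ℤ) * τ + (e * d0 : ℤ))) =
        (if e = 1 ∨ e = 2 then 1 else s) *
          (((10 * 0 : ℤ) * τ + (e * d0 : ℤ)) ^ 2 / e) ^ m * F τ := by
    intro e e' a0 b d0 he hee h1 τ hτ
    rw [mul_zero, sub_zero, mul_assoc] at h1
    have he1 : e = 1 := Int.eq_one_of_dvd_one he.le ⟨_, h1.symm⟩
    subst he1
    rw [one_mul] at h1
    rcases Int.mul_eq_one_iff_eq_one_or_neg_one.mp h1 with ⟨h2, h3⟩ | ⟨h2, h3⟩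
    · subst h2; subst h3
      have := fper F hF.per τ hτ b
      simpa using this
    · subst h2; subst h3
      have := fper F hF.per τ hτ (-b)
      have e1 : (((1 * -1 : ℤ) : ℂ) * τ + b) / ((10 * 0 : ℤ) * τ + (1 * -1 : ℤ))
          = τ + ((-b : ℤ) : ℂ) := by
        push_cast
        rw [zero_mul, zero_add, div_neg, div_one]
        ring
      rw [e1, this]
      simp
  induction N with
  | zero =>
    intro e e' a0 b c0 d0 he hee h1 hN
    have he' : 0 < e' := by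
      by_contra hc
      push Not at hc
      nlinarith
    have hc0 : c0 = 0 := by
      by_contra hc
      have : 0 < c0 ^ 2 * e' := by positivity
      push_cast at hN
      omega
    subst hc0
    exact base e e' a0 b d0 he hee h1
  | succ N ih =>
    intro e e' a0 b c0 d0' he hee h1' hN
    have he' : 0 < e' := by
      by_contra hc
      push Not at hc
      nlinarith
    by_cases hc0 : c0 = 0
    · subst hc0
      exact base e e' a0 b d0' he hee h1'
    obtain ⟨n, hn⟩ := choose_n (e' * c0) d0' (mul_ne_zero he'.ne' hc0)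
    refine tr_step F s m hF _ _ _ _ _ n _ ?_
    have eb : e * d0' + n * (10 * c0) = e * (d0' + n * (e' * c0)) := by
      rw [← hee]; ring
    rw [eb]
    have h1 : e * a0 * (d0' + n * (e' * c0)) - e' * (b + n * (e * a0)) * c0 = 1 := by
      rw [← h1']; ring
    generalize d0' + n * (e' * c0) = d0 at hn h1
    generalize b + n * (e * a0) = b at h1
    have hcd : (10 * c0 : ℤ) ≠ 0 ∨ e * d0 ≠ 0 := Or.inl (mul_ne_zero (by norm_num) hc0)
    push_cast at hN
    have hss : s * s = 1 := by rw [← sq]; exact hs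
    have hcase : (e = 1 ∧ e' = 10) ∨ (e = 2 ∧ e' = 5) ∨ (e = 5 ∧ e' = 2) ∨ (e = 10 ∧ e' = 1) := by
      have h10 : e ≤ 10 := by nlinarith
      interval_cases e <;> omega
    rcases hn with hn | hn
    · -- W10
      rcases hcase with ⟨h2, h3⟩ | ⟨h2, h3⟩ | ⟨h2, h3⟩ | ⟨h2, h3⟩
      all_goals subst h2; subst h3
      · refine w10_step F s m hF _ _ _ _ _ (10 * b) (-a0) (10 * d0) (10 * -c0) 10 1
          (by norm_num) (by norm_num) (by norm_num) (by ring) (by ring) (by ring) (by ring)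
          (by norm_num) hcd _ s (by simpa using hss) ?_
        have := ih 10 1 b (-a0) d0 (-c0) (by norm_num) (by norm_num) (by linarith) (by nlinarith)
        simpa using this
      · refine w10_step F s m hF _ _ _ _ _ (5 * b) (-a0) (10 * d0) (5 * -c0) 5 2
          (by norm_num) (by norm_num) (by norm_num) (by ring) (by ring) (by ring) (by ring)
          (by norm_num) hcd _ s (by simpa using hss) ?_
        have := ih 5 2 b (-a0) d0 (-c0) (by norm_num) (by norm_num) (by linarith) (by nlinarith)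
        simpa using this
      · refine w10_step F s m hF _ _ _ _ _ (2 * b) (-a0) (10 * d0) (2 * -c0) 2 5
          (by norm_num) (by norm_num) (by norm_num) (by ring) (by ring) (by ring) (by ring)
          (by norm_num) hcd _ 1 (by simp) ?_
        have := ih 2 5 b (-a0) d0 (-c0) (by norm_num) (by norm_num) (by linarith) (by nlinarith)
        simpa using this
      · refine w10_step F s m hF _ _ _ _ _ (1 * b) (-a0) (10 * d0) (1 * -c0) 1 10
          (by norm_num) (by norm_num) (by norm_num) (by ring) (by ring) (by ring) (by ring)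
          (by norm_num) hcd _ 1 (by simp) ?_
        have := ih 1 10 b (-a0) d0 (-c0) (by norm_num) (by norm_num) (by linarith) (by nlinarith)
        simpa using this
    · -- W5
      rcases hcase with ⟨h2, h3⟩ | ⟨h2, h3⟩ | ⟨h2, h3⟩ | ⟨h2, h3⟩
      all_goals subst h2; subst h3
      · refine w5_step F s m hF _ _ _ _ _ (5 * (a0 + 2 * b)) (-(3 * a0 + 5 * b))
          (10 * (5 * c0 + d0)) (5 * (-(6 * c0 + d0))) 5 1
          (by norm_num) (by norm_num) (by norm_num) (by ring) (by ring) (by ring) (by ring)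
          (by norm_num) hcd _ s (by simpa using hss) ?_
        have := ih 5 2 (a0 + 2 * b) (-(3 * a0 + 5 * b)) (5 * c0 + d0) (-(6 * c0 + d0))
          (by norm_num) (by norm_num) (by linarith) (by nlinarith)
        simpa using this
      · refine w5_step F s m hF _ _ _ _ _ (10 * (a0 + b)) (-(6 * a0 + 5 * b))
          (10 * (5 * c0 + 2 * d0)) (10 * (-(3 * c0 + d0))) 10 1
          (by norm_num) (by norm_num) (by norm_num) (by ring) (by ring) (by ring) (by ring)
          (by norm_num) hcd _ s (by simpa using hss) ?_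
        have := ih 10 1 (a0 + b) (-(6 * a0 + 5 * b)) (5 * c0 + 2 * d0) (-(3 * c0 + d0))
          (by norm_num) (by norm_num) (by linarith) (by nlinarith)
        simpa using this
      · refine w5_step F s m hF _ _ _ _ _ (1 * (5 * a0 + 2 * b)) (-(3 * a0 + b))
          (10 * (c0 + d0)) (1 * (-(6 * c0 + 5 * d0))) 1 5
          (by norm_num) (by norm_num) (by norm_num) (by ring) (by ring) (by ring) (by ring)
          (by norm_num) hcd _ 1 (by simp) ?_
        have := ih 1 10 (5 * a0 + 2 * b) (-(3 * a0 + b)) (c0 + d0) (-(6 * c0 + 5 * d0))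
          (by norm_num) (by norm_num) (by linarith) (by nlinarith)
        simpa using this
      · refine w5_step F s m hF _ _ _ _ _ (2 * (5 * a0 + b)) (-(6 * a0 + b))
          (10 * (c0 + 2 * d0)) (2 * (-(3 * c0 + 5 * d0))) 2 5
          (by norm_num) (by norm_num) (by norm_num) (by ring) (by ring) (by ring) (by ring)
          (by norm_num) hcd _ 1 (by simp) ?_
        have := ih 2 5 (5 * a0 + b) (-(6 * a0 + b)) (c0 + 2 * d0) (-(3 * c0 + 5 * d0))
          (by norm_num) (by norm_num) (by linarith) (by nlinarith)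
        simpa using this

theorem m_GEN : T_GEN := by
  intro F s m hs hF a b c d e he hdet hea hed hc τ hτ
  obtain ⟨a0, rfl⟩ := hea
  obtain ⟨d0, rfl⟩ := hed
  obtain ⟨c0, rfl⟩ := hc
  have he0 : 0 < e := by omega
  obtain ⟨e', hee⟩ : ∃ e' : ℤ, e * e' = 10 := by
    rcases he with h | h | h | h
    · exact ⟨10, by rw [h]; norm_num⟩
    · exact ⟨5, by rw [h]; norm_num⟩
    · exact ⟨2, by rw [h]; norm_num⟩
    · exact ⟨1, by rw [h]; norm_num⟩
  have h1 : e * a0 * d0 - e' * b * c0 = 1 := by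
    have h2 : e * (e * a0 * d0 - e' * b * c0) = e * 1 := by
      calc e * (e * a0 * d0 - e' * b * c0) = e * a0 * (e * d0) - b * ((e * e') * c0) := by ring
        _ = e * 1 := by rw [hee, mul_one]; exact hdet
    exact mul_left_cancel₀ he0.ne' h2
  exact gen_ind F s m hs hF (c0 ^ 2 * e').toNat e e' a0 b c0 d0 he0 hee h1
    (Int.self_le_toNat _) τ hτ

end Pool.Agent.H12.S36
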