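import Pool.Agent.H32.S36.Targets

set_option autoImplicit false

open Complex Pool.Agent.H32.S36

namespace Pool.Agent.H12.S36

theorem gper (G : ℂ → ℝ) (hp : ∀ τ : ℂ, 0 < τ.im → G (τ + 1) = G τ) (τ : ℂ) (hτ : 0 < τ.im)
    (n : ℤ) : G (τ + n) = G τ := by
  induction n using Int.induction_on with
  | zero => simp
  | succ k ih =>
    have h1 := hp (τ + ((k : ℤ) : ℂ)) (by simpa using hτ)
    rw [ih] at h1
    rw [← h1]
    congr 1
    push_cast
    ring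
  | pred k ih =>
    have h1 := hp (τ + ((-(k : ℤ) - 1 : ℤ) : ℂ)) (by simpa using hτ)
    rw [← h1, ← ih]
    congr 1
    push_cast
    ring

theorem im10 (τ : ℂ) (hτ : 0 < τ.im) :
    (-1 / (10 * τ)).im = τ.im / (10 * (τ.re ^ 2 + τ.im ^ 2)) := by
  have h : 0 < τ.re ^ 2 + τ.im ^ 2 := by positivity
  have h' : (10 * τ.re) * (10 * τ.re) + (10 * τ.im) * (10 * τ.im) ≠ 0 := by
    have : (10 * τ.re) * (10 * τ.re) + (10 * τ.im) * (10 * τ.im) = 100 * (τ.re ^ 2 + τ.im ^ 2) := by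
      ring
    rw [this]; positivity
  rw [Complex.div_im]
  simp only [Complex.normSq_apply, Complex.neg_im, Complex.one_im, Complex.neg_re, Complex.one_re,
    Complex.mul_re, Complex.mul_im, Complex.re_ofNat, Complex.im_ofNat]
  simp only [zero_mul, sub_zero, add_zero, neg_zero, zero_div, zero_sub]
  rw [neg_mul, neg_div, neg_neg, one_mul]
  rw [div_eq_div_iff h' (by positivity)]
  ring

theorem im5 (τ : ℂ) (hτ : 0 < τ.im) :
    ((5 * τ - 3) / (10 * τ - 5)).im = τ.im / (20 * ((τ.re - 1 / 2) ^ 2 + τ.im ^ 2)) := by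
  have h : 0 < (τ.re - 1 / 2) ^ 2 + τ.im ^ 2 := by positivity
  have h' : (10 * τ.re - 5) * (10 * τ.re - 5) + (10 * τ.im) * (10 * τ.im) ≠ 0 := by
    have : (10 * τ.re - 5) * (10 * τ.re - 5) + (10 * τ.im) * (10 * τ.im)
        = 100 * ((τ.re - 1 / 2) ^ 2 + τ.im ^ 2) := by
      ring
    rw [this]; positivity
  rw [Complex.div_im]
  simp only [Complex.normSq_apply, Complex.sub_re, Complex.sub_im,
    Complex.mul_re, Complex.mul_im, Complex.re_ofNat, Complex.im_ofNat]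
  simp only [zero_mul, sub_zero, add_zero]
  rw [← sub_div, div_eq_div_iff h' (by positivity)]
  ring

theorem red_step (G : ℂ → ℝ) (hp : ∀ τ : ℂ, 0 < τ.im → G (τ + 1) = G τ)
    (h10 : ∀ τ : ℂ, 0 < τ.im → G (-1 / (10 * τ)) = G τ)
    (h5 : ∀ τ : ℂ, 0 < τ.im → G ((5 * τ - 3) / (10 * τ - 5)) = G τ)
    (τ : ℂ) (hτ : 0 < τ.im) (h1 : -(1 / 2) ≤ τ.re) (h2 : τ.re ≤ 1 / 2) (h3 : τ.im < 1 / 12) :
    ∃ τ' : ℂ, τ.im ≤ (97 / 100) * τ'.im ∧ G τ' = G τ := by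
  by_cases hX : |τ.re| ≤ 3 / 10
  · refine ⟨-1 / (10 * τ), ?_, h10 τ hτ⟩
    rw [im10 τ hτ]
    have hpos : 0 < τ.re ^ 2 + τ.im ^ 2 := by positivity
    rw [mul_div_assoc', le_div_iff₀ (by positivity)]
    have hx2 : τ.re ^ 2 ≤ (3 / 10) ^ 2 := by
      rw [← sq_abs]
      exact pow_le_pow_left₀ (abs_nonneg _) hX 2
    have hy2 : τ.im ^ 2 ≤ (1 / 12) ^ 2 := pow_le_pow_left₀ hτ.le h3.le 2
    nlinarith
  · push Not at hX
    have key : ∀ σ : ℂ, 0 < σ.im → σ.im < 1 / 12 → 3 / 10 ≤ σ.re → σ.re ≤ 7 / 10 →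
        ∃ τ' : ℂ, σ.im ≤ (97 / 100) * τ'.im ∧ G τ' = G σ := by
      intro σ hσ hs1 hs2 hs3
      refine ⟨(5 * σ - 3) / (10 * σ - 5), ?_, h5 σ hσ⟩
      rw [im5 σ hσ]
      have hpos : 0 < (σ.re - 1 / 2) ^ 2 + σ.im ^ 2 := by positivity
      rw [mul_div_assoc', le_div_iff₀ (by positivity)]
      have hx2 : (σ.re - 1 / 2) ^ 2 ≤ (1 / 5) ^ 2 := by
        apply sq_le_sq'
        · linarith
        · linarith
      have hy2 : σ.im ^ 2 ≤ (1 / 12) ^ 2 := pow_le_pow_left₀ hσ.le hs1.le 2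
      nlinarith
    rcases le_or_gt 0 τ.re with h0 | h0
    · rw [abs_of_nonneg h0] at hX
      exact key τ hτ h3 hX.le (by linarith)
    · rw [abs_of_neg h0] at hX
      obtain ⟨τ', h4, h6⟩ := key (τ + 1) (by simpa using hτ) (by simpa using h3)
        (by simp only [Complex.add_re, Complex.one_re]; linarith)
        (by simp only [Complex.add_re, Complex.one_re]; linarith)
      refine ⟨τ', by simpa using h4, ?_⟩
      rw [h6, hp τ hτ]

theorem red_ind (G : ℂ → ℝ) (hp : ∀ τ : ℂ, 0 < τ.im → G (τ + 1) = G τ)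
    (h10 : ∀ τ : ℂ, 0 < τ.im → G (-1 / (10 * τ)) = G τ)
    (h5 : ∀ τ : ℂ, 0 < τ.im → G ((5 * τ - 3) / (10 * τ - 5)) = G τ) (k : ℕ) :
    ∀ τ : ℂ, (97 / 100 : ℝ) ^ k / 12 ≤ τ.im →
      ∃ τ' : ℂ, 1 / 12 ≤ τ'.im ∧ -(1 / 2) ≤ τ'.re ∧ τ'.re ≤ 1 / 2 ∧ G τ' = G τ := by
  have tr : ∀ τ : ℂ, 0 < τ.im → ∃ σ : ℂ, σ.im = τ.im ∧ -(1 / 2) ≤ σ.re ∧ σ.re ≤ 1 / 2 ∧ G σ = G τ := by
    intro τ hτ
    refine ⟨τ + ((-round τ.re : ℤ) : ℂ), by simp, ?_, ?_, gper G hp τ hτ _⟩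
    · have h := abs_sub_round τ.re
      rw [abs_le] at h
      have e : (τ + ((-round τ.re : ℤ) : ℂ)).re = τ.re - round τ.re := by
        rw [Complex.add_re, Complex.intCast_re]
        push_cast
        ring
      rw [e]
      exact h.1
    · have h := abs_sub_round τ.re
      rw [abs_le] at h
      have e : (τ + ((-round τ.re : ℤ) : ℂ)).re = τ.re - round τ.re := by
        rw [Complex.add_re, Complex.intCast_re]
        push_cast
        ring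
      rw [e]
      exact h.2
  induction k with
  | zero =>
    intro τ hτ
    rw [pow_zero] at hτ
    have hτ' : 0 < τ.im := lt_of_lt_of_le (by norm_num) hτ
    obtain ⟨σ, h1, h2, h3, h4⟩ := tr τ hτ'
    exact ⟨σ, by rw [h1]; exact hτ, h2, h3, h4⟩
  | succ k ih =>
    intro τ hτ
    have hτ' : 0 < τ.im := lt_of_lt_of_le (by positivity) hτ
    obtain ⟨σ, h1, h2, h3, h4⟩ := tr τ hτ'
    by_cases hs : 1 / 12 ≤ σ.im
    · exact ⟨σ, hs, h2, h3, h4⟩
    · push Not at hs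
      obtain ⟨τ', h6, h7⟩ := red_step G hp h10 h5 σ (by rw [h1]; exact hτ') h2 h3 hs
      have h8 : (97 / 100 : ℝ) ^ k / 12 ≤ τ'.im := by
        rw [pow_succ] at hτ
        rw [h1] at h6
        nlinarith
      obtain ⟨τ'', a, b, c, d⟩ := ih τ' h8
      exact ⟨τ'', a, b, c, by rw [d, h7, h4]⟩

theorem m_RED : T_RED := by
  intro G hp h10 h5 τ hτ
  obtain ⟨k, hk⟩ := exists_pow_lt_of_lt_one (show (0 : ℝ) < 12 * τ.im by positivity)
    (show (97 / 100 : ℝ) < 1 by norm_num)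
  exact red_ind G hp h10 h5 k τ (by linarith)

end Pool.Agent.H12.S36
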