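import Pool.Agent.H12.S36.GEN

set_option autoImplicit false

open Complex Pool.Agent.H32.S36

namespace Pool.Agent.H12.S36

theorem t0_sq : t0 ^ 2 = -(3 / 10) := by
  unfold t0
  rw [mul_pow, Complex.I_sq, ← Complex.ofReal_pow, Real.sq_sqrt (by norm_num)]
  push_cast
  ring

theorem t0_im : 0 < t0.im := by
  unfold t0
  have : (Complex.I * ((Real.sqrt (3 / 10) : ℝ) : ℂ)).im = Real.sqrt (3 / 10) := by
    simp [Complex.mul_im]
  rw [this]
  exact Real.sqrt_pos.mpr (by norm_num)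

theorem m_SPL (hG : T_GEN) : T_SPL := by
  intro h hh p hp hp2 hp3 hp5 e u w he huw heu
  have hpp : p.Prime := hp.out
  have hpZ : Prime (p : ℤ) := Nat.prime_iff_prime_int.mp hpp
  have hp0 : (p : ℤ) ≠ 0 := hpZ.ne_zero
  have he0 : 0 < e := by omega
  have hnd : ∀ q : ℕ, q.Prime → q ≠ p → ¬ (p : ℤ) ∣ (q : ℤ) := by
    intro q hq hqp hd
    have h1 : p ∣ q := by exact_mod_cast hd
    exact hqp ((Nat.prime_dvd_prime_iff_eq hpp hq).mp h1).symm
  have hn2 : ¬ (p : ℤ) ∣ 2 := hnd 2 Nat.prime_two (Ne.symm hp2)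
  have hn5 : ¬ (p : ℤ) ∣ 5 := hnd 5 Nat.prime_five (Ne.symm hp5)
  have hn10 : ¬ (p : ℤ) ∣ 10 := by
    intro hd
    have : (p : ℤ) ∣ 2 * 5 := by norm_num; exact hd
    rcases hpZ.dvd_or_dvd this with h1 | h1
    · exact hn2 h1
    · exact hn5 h1
  have he10 : e ∣ 10 := by
    rcases he with h1 | h1 | h1 | h1 <;> rw [h1] <;> norm_num
  have hne : ¬ (p : ℤ) ∣ e := fun hd => hn10 (hd.trans he10)
  have hnw : ¬ (p : ℤ) ∣ w := by
    intro hd
    obtain ⟨w', rfl⟩ := hd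
    have h1 : (p : ℤ) ∣ u ^ 2 := by
      have : u ^ 2 = p * (e - 30 * p * w' ^ 2) := by linear_combination huw
      exact ⟨_, this⟩
    obtain ⟨u', rfl⟩ := hpZ.dvd_of_dvd_pow h1
    apply hne
    refine ⟨u' ^ 2 + 30 * w' ^ 2, ?_⟩
    apply mul_left_cancel₀ hp0
    linear_combination -huw
  have hn10w : ¬ (p : ℤ) ∣ 10 * w := by
    intro hd
    rcases hpZ.dvd_or_dvd hd with h1 | h1
    · exact hn10 h1
    · exact hnw h1
  have hz : ((10 * w : ℤ) : ZMod p) ≠ 0 := by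
    intro h0
    exact hn10w ((ZMod.intCast_zmod_eq_zero_iff_dvd (10 * w) p).mp h0)
  set j : ZMod p := ((u : ℤ) : ZMod p) / ((10 * w : ℤ) : ZMod p) with hj
  have hJ : (((j.val : ℕ) : ℤ) : ZMod p) = j := by simp
  have hd1 : (p : ℤ) ∣ u - 10 * w * (j.val : ℤ) := by
    rw [← ZMod.intCast_zmod_eq_zero_iff_dvd]
    rw [Int.cast_sub, Int.cast_mul, hJ, hj, mul_div_cancel₀ _ hz, sub_self]
  generalize hJJ : (j.val : ℤ) = J at hd1
  obtain ⟨d, hd⟩ := hd1
  have hd2 : (p : ℤ) ∣ u * J + 3 * w := by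
    have h1 : (p : ℤ) ∣ (10 * w) * (u * J + 3 * w) := by
      refine ⟨e - u * d, ?_⟩
      linear_combination huw - u * hd
    rcases hpZ.dvd_or_dvd h1 with h2 | h2
    · exact absurd h2 hn10w
    · exact h2
  obtain ⟨b, hb⟩ := hd2
  have hdet : u * d - (-b) * (10 * w) = e := by
    apply mul_left_cancel₀ hp0
    linear_combination huw - u * hd - 10 * w * hb
  have hed : e ∣ d := by
    have h1 : e ∣ p * d := by
      rw [← hd]
      exact dvd_sub heu ((he10.mul_right w).mul_right J)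
    have h2 : IsCoprime (p : ℤ) e := (Prime.coprime_iff_not_dvd hpZ).mpr hne
    exact h2.symm.dvd_of_dvd_mul_left h1
  have hσ : 0 < ((t0 + J) / p : ℂ).im := by
    have e1 : ((t0 + J) / p : ℂ).im = t0.im / p := by
      have : ((p : ℕ) : ℂ) = (((p : ℕ) : ℝ) : ℂ) := by simp
      rw [this, Complex.div_ofReal_im, Complex.add_im, Complex.intCast_im, add_zero]
    rw [e1]
    have hpos : (0 : ℝ) < p := by exact_mod_cast hpp.pos
    exact div_pos t0_im hpos
  have key := hG h (-1) (-1) (by norm_num) hh u (-b) (10 * w) d e he hdet heu hed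
    (dvd_mul_right _ _) ((t0 + J) / p) hσ
  have hpC : (p : ℂ) ≠ 0 := by exact_mod_cast hpp.ne_zero
  have heC : (e : ℂ) ≠ 0 := by exact_mod_cast he0.ne'
  have hdC : (u : ℂ) - 10 * w * J = p * d := by exact_mod_cast hd
  have hbC : (u : ℂ) * J + 3 * w = p * b := by exact_mod_cast hb
  have hnz : (u : ℂ) + 10 * w * t0 ≠ 0 := by
    have h1 := cd_ne (10 * w) u (Or.inl (by
      intro h0
      apply hn10w
      rw [h0]
      exact dvd_zero _)) t0 t0_im
    push_cast at h1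
    rwa [add_comm]
  have e1 : (u : ℂ) * ((t0 + J) / p) + ((-b : ℤ) : ℂ) = (u * t0 - 3 * w) / p := by
    rw [mul_div_assoc', eq_div_iff hpC, add_mul, div_mul_cancel₀ _ hpC]
    push_cast
    linear_combination hbC
  have e2 : ((10 * w : ℤ) : ℂ) * ((t0 + J) / p) + (d : ℂ) = (u + 10 * w * t0) / p := by
    rw [mul_div_assoc', eq_div_iff hpC, add_mul, div_mul_cancel₀ _ hpC]
    push_cast
    linear_combination -hdC
  have e3 : ((u : ℂ) * t0 - 3 * w) / p / ((u + 10 * w * t0) / p) = t0 := by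
    rw [div_div_div_cancel_right₀ hpC, div_eq_iff hnz]
    linear_combination (-10 * (w : ℂ)) * t0_sq
  rw [e1, e2, e3] at key
  refine ⟨some j, ?_⟩
  have hJC : ((j.val : ℕ) : ℂ) = (J : ℂ) := by
    rw [← hJJ]
    simp
  show (p : ℂ) ^ 2 * h ((t0 + ((j.val : ℕ) : ℂ)) / p) = _
  rw [hJC]
  generalize h ((t0 + (J : ℂ)) / p) = Z at key
  have hchi : ((chi e : ℤ) : ℂ) = (if e = 1 ∨ e = 2 then 1 else -1) := by
    unfold chi
    split_ifs <;> simp
  have hchi2 : (if e = 1 ∨ e = 2 then (1 : ℂ) else -1) * (if e = 1 ∨ e = 2 then (1 : ℂ) else -1) = 1 := by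
    split_ifs <;> norm_num
  rw [hchi, key]
  generalize (if e = 1 ∨ e = 2 then (1 : ℂ) else -1) = X at hchi2
  rw [zpow_neg, zpow_one]
  have e5 : (((u : ℂ) + 10 * w * t0) / p) ^ 2 / e ≠ 0 :=
    div_ne_zero (pow_ne_zero 2 (div_ne_zero hnz hpC)) heC
  have e6 : ((u : ℂ) + 10 * w * t0) ^ 2 / e = p ^ 2 * ((((u : ℂ) + 10 * w * t0) / p) ^ 2 / e) := by
    field_simp
  rw [e6]
  generalize (((u : ℂ) + 10 * w * t0) / p) ^ 2 / e = Y at e5
  calc (p : ℂ) ^ 2 * Z = (X * X) * (p ^ 2 * Z) := by rw [hchi2, one_mul]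
    _ = X * (p ^ 2 * Y) * (X * Y⁻¹ * Z) := by
      field_simp

end Pool.Agent.H12.S36
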